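import Pool.Agent.Lib.MP_b1a3a4_al.MVS.TH.Iface

/-!
# Project MVS, part V, module EC0 (13.24)

The filtration is essentially `0`-connected.
-/

set_option linter.all false

namespace Pool.Agent.Lib.MP_b1a3a4_al.MVS.TH.H49

open Finsupp MVS MVS.HO

/-- the label of the cube of dimension `0` -/
def l0 {V : Type} (v : V) : Lab V 0 := fun _ => v

/-- the point of the cube of dimension `0` -/
def x0 : Cu 0 := fun i => i.elim0

/-- the label of an edge -/
def e1 {V : Type} (a b : V) : Lab V 1 := fun x => if x 0 then b else a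

lemma lab_zero {V : Type} (c : Lab V 0) : c = l0 (c (fun i => i.elim0)) := by
  funext x
  unfold l0
  congr 1
  funext i
  exact i.elim0

lemma cu_zero (x : Cu 0) : x = x0 := by
  funext i
  exact i.elim0

lemma fi_zero (ε : Bool) (x : Cu 0) : fi 0 ε x = fun _ => ev ε := by
  funext j
  have hj : j = 0 := by
    apply Fin.ext
    have := j.2
    omega
  subst hj
  simp [fi]

lemma fc_e1_false {V : Type} (a b : V) : fc 0 false (e1 a b) = l0 a := by
  funext x
  simp [fc, e1, l0]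

lemma fc_e1_true {V : Type} (a b : V) : fc 0 true (e1 a b) = l0 b := by
  funext x
  simp [fc, e1, l0]

lemma joined_edge {S V Z : Type} [Group S] [TopologicalSpace Z] {n : ℕ} {up : ℝ → Set Z}
    {h : V → ℝ} {lam : V → S} {B : Set S} {D : ℝ} {β : ∀ q, Lab V q → Cu q → Z}
    (hβ : BetaOK n up h lam B D β) (hn : 1 ≤ n) (h1 : (1 : S) ∈ B) (a b : V)
    (hab : (lam a)⁻¹ * lam b ∈ B) (hba : (lam b)⁻¹ * lam a ∈ B) (τ : ℝ) (ha : τ ≤ h a)
    (hb : τ ≤ h b) : JoinedIn (up (τ - D)) (β 0 (l0 a) x0) (β 0 (l0 b) x0) := by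
  have hbd : Bd lam B (e1 a b) := by
    intro x y
    by_cases hx : x 0 = true <;> by_cases hy : y 0 = true <;> simp [e1, hx, hy, h1, hab, hba]
  have hup : Up h τ (e1 a b) := by
    intro x
    by_cases hx : x 0 = true <;> simp [e1, hx, ha, hb]
  have hc := hβ.cont 1 hn (e1 a b) hbd
  have hface : ∀ ε, β 1 (e1 a b) (fun _ => ev ε) = β 0 (fc 0 ε (e1 a b)) x0 := by
    intro ε
    rw [← fi_zero ε x0]
    exact hβ.face 0 hn (e1 a b) hbd 0 ε x0
  refine ⟨⟨⟨fun s => β 1 (e1 a b) (fun _ => s), hc.comp (continuous_pi fun _ => continuous_id)⟩,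
    ?_, ?_⟩, ?_⟩
  · have := hface false
    rw [fc_e1_false] at this
    exact this
  · have := hface true
    rw [fc_e1_true] at this
    exact this
  · intro s
    exact hβ.up 1 hn (e1 a b) hbd τ hup _

lemma wval_cons {G : Type} [Group G] {r : ℕ} (φ : FreeGroup (Fin r) →* G) (x : Fin r × Bool)
    (w : List (Fin r × Bool)) : wval φ (x :: w) = wval φ [x] * wval φ w := by
  unfold wval
  rw [← map_mul, FreeGroup.mul_mk]
  rfl

lemma wval_nil {G : Type} [Group G] {r : ℕ} (φ : FreeGroup (Fin r) →* G) :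
    wval φ [] = 1 := by
  unfold wval
  rw [← FreeGroup.one_eq_mk, map_one]

lemma wval_inv {G : Type} [Group G] {r : ℕ} (φ : FreeGroup (Fin r) →* G) (x : Fin r × Bool) :
    (wval φ [x])⁻¹ = wval φ [(x.1, !x.2)] := by
  unfold wval
  rw [← map_inv, FreeGroup.inv_mk]
  rfl

lemma joined_word {S V Z : Type} [Group S] [MulAction S V] [TopologicalSpace Z]
    {χ : S →* Multiplicative ℝ} {n : ℕ} {up : ℝ → Set Z}
    {h : V → ℝ} {lam : V → S} {B : Set S} {D : ℝ} {β : ∀ q, Lab V q → Cu q → Z}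
    (hl : LabS S V χ h lam) (hβ : BetaOK n up h lam B D β) (hn : 1 ≤ n) (h1 : (1 : S) ∈ B)
    {r : ℕ} (φ : FreeGroup (Fin r) →* S) (hφ : ∀ x : Fin r × Bool, wval φ [x] ∈ B) (o : V)
    (ho : lam o = 1) (τ : ℝ) : ∀ (w : List (Fin r × Bool)) (g : S),
      PathIn φ (above χ τ) g w →
      JoinedIn (up (τ + h o - D)) (β 0 (l0 (g • o)) x0) (β 0 (l0 ((g * wval φ w) • o)) x0) := by
  have hlam : ∀ s : S, lam (s • o) = s := fun s => by rw [hl.smul, ho, mul_one]
  intro w
  induction w with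
  | nil =>
    intro g hg
    rw [wval_nil, mul_one]
    have h2 := hg [] List.nil_prefix
    rw [wval_nil, mul_one] at h2
    have h3 : τ + h o ≤ h (g • o) := by
      rw [hl.ht]
      have h4 : τ ≤ Multiplicative.toAdd (χ g) := h2
      linarith
    have h5 : (lam (g • o))⁻¹ * lam (g • o) ∈ B := by simpa using h1
    exact joined_edge hβ hn h1 _ _ h5 h5 _ h3 h3
  | cons x w ih =>
    intro g hg
    have e : g * wval φ (x :: w) = (g * wval φ [x]) * wval φ w := by
      rw [wval_cons, mul_assoc]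
    rw [e]
    have hg' : PathIn φ (above χ τ) (g * wval φ [x]) w := by
      intro u hu
      have h2 := hg (x :: u) ((List.cons_prefix_cons).2 ⟨rfl, hu⟩)
      rwa [wval_cons, ← mul_assoc] at h2
    have h2 := hg [] List.nil_prefix
    rw [wval_nil, mul_one] at h2
    have h2' := hg' [] List.nil_prefix
    rw [wval_nil, mul_one] at h2'
    have hh : ∀ s : S, s ∈ above χ τ → τ + h o ≤ h (s • o) := by
      intro s hs
      rw [hl.ht]
      have h4 : τ ≤ Multiplicative.toAdd (χ s) := hs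
      linarith
    refine JoinedIn.trans (joined_edge hβ hn h1 _ _ ?_ ?_ _ (hh _ h2) (hh _ h2')) (ih _ hg')
    · rw [hlam, hlam]
      simpa using hφ x
    · rw [hlam, hlam]
      have : (g * wval φ [x])⁻¹ * g = wval φ [(x.1, !x.2)] := by
        rw [← wval_inv]
        group
      rw [this]
      exact hφ _

/-- EC0 (13.24) -/
theorem ec0 : Ec0Statement := by
  classical
  intro S V Z _ _ _ χ n up h lam hA hn r φ R hsur hR hker hS2
  obtain ⟨hl, hanti, B₀, D₀, hB₀, hD₀, happr⟩ := hA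
  obtain ⟨Dσ, hDσ⟩ := hS2 r φ R hsur hR hker
  -- the base label
  obtain ⟨v₁⟩ := hl.ne
  set o : V := (lam v₁)⁻¹ • v₁ with ho_def
  have ho : lam o = 1 := by rw [ho_def, hl.smul, inv_mul_cancel]
  have hlam : ∀ s : S, lam (s • o) = s := fun s => by rw [hl.smul, ho, mul_one]
  -- the constant
  obtain ⟨C, hC⟩ : ∃ C : ℝ, ∀ v, lam v = 1 → |h v| ≤ C := by
    obtain ⟨C, hC⟩ := (hl.fib.image (fun v => |h v|)).bddAbove
    exact ⟨C, fun v hv => hC ⟨v, hv, rfl⟩⟩
  have hCo : |h o| ≤ C := hC o ho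
  have hC0 : 0 ≤ C := (abs_nonneg _).trans hCo
  have hCv : ∀ v, h v - C ≤ Multiplicative.toAdd (χ (lam v)) := by
    intro v
    have h1 : lam ((lam v)⁻¹ • v) = 1 := by rw [hl.smul, inv_mul_cancel]
    have h2 := (abs_le.1 (hC _ h1)).2
    rw [hl.ht, map_inv, toAdd_inv] at h2
    linarith
  set B₁ : Set S := B₀ ∪ {1} ∪ Set.range (fun x : Fin r × Bool => wval φ [x]) with hB₁
  have hB₁f : B₁.Finite := (hB₀.union (Set.finite_singleton _)).union (Set.finite_range _)
  have h1B : (1 : S) ∈ B₁ := Or.inl (Or.inr rfl)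
  have hφB : ∀ x : Fin r × Bool, wval φ [x] ∈ B₁ := fun x => Or.inr ⟨x, rfl⟩
  obtain ⟨β, D₁, hD₁, hβ, happ⟩ := happr B₁ hB₁f (fun s hs => Or.inl (Or.inl hs))
  set D : ℝ := D₀ + 2 * C + |Dσ| + D₁ with hD
  have hσ0 : 0 ≤ |Dσ| := abs_nonneg _
  refine ⟨D, by linarith, fun t => ?_⟩
  rw [fills_iff]
  intro f hf
  obtain ⟨m, G, hG, hext⟩ := happ t 0 (by omega) f hf
  -- the labels of the two end points
  have hlab : ∀ ε, ∃ v, (∀ p : Fin 0 → ℕ, lab (gf 0 ε (2 ^ m) G) p = l0 v) ∧ t - D₀ ≤ h v := by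
    intro ε
    refine ⟨lab (gf 0 ε (2 ^ m) G) (fun i => i.elim0) (fun i => i.elim0), ?_, ?_⟩
    · intro p
      have hp : p = fun i => i.elim0 := by
        funext i
        exact i.elim0
      rw [hp]
      exact lab_zero _
    · exact (hG 0 ε (fun i => i.elim0) (fun j => j.elim0)).2 _
  obtain ⟨u, hu, hut⟩ := hlab false
  obtain ⟨v, hv, hvt⟩ := hlab true
  -- joining the two points
  have hanti' : ∀ τ : ℝ, t - D ≤ τ → ∀ a b, JoinedIn (up τ) a b → JoinedIn (up (t - D)) a b :=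
    fun τ hτ a b hab => hab.mono (hanti _ _ hτ)
  have hσ1 : Dσ ≤ |Dσ| := le_abs_self _
  have hho := abs_le.1 hCo
  have hedge : ∀ a : V, t - D₀ ≤ h a →
      JoinedIn (up (t - D)) (β 0 (l0 a) x0) (β 0 (l0 (lam a • o)) x0) := by
    intro a ha
    have h3 : t - D₀ - C - C ≤ h a := by linarith
    have h4 : t - D₀ - C - C ≤ h (lam a • o) := by
      rw [hl.ht]
      have := hCv a
      linarith [hho.1]
    have h5 : (lam a)⁻¹ * lam (lam a • o) ∈ B₁ := by rw [hlam]; simpa using h1B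
    have h6 : (lam (lam a • o))⁻¹ * lam a ∈ B₁ := by rw [hlam]; simpa using h1B
    exact hanti' _ (by rw [hD]; linarith) _ _ (joined_edge hβ hn h1B _ _ h5 h6 _ h3 h4)
  have hab : ∀ a : V, t - D₀ ≤ h a → lam a ∈ above χ (t - D₀ - C) := by
    intro a ha
    show t - D₀ - C ≤ Multiplicative.toAdd (χ (lam a))
    have := hCv a
    linarith
  obtain ⟨w, hw1, hw2⟩ := (hDσ (t - D₀ - C)).1 (lam u) (lam v) (hab u hut) (hab v hvt)
  have hword := joined_word hl hβ hn h1B φ hφB o ho (t - D₀ - C - Dσ) w (lam u) hw2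
  rw [hw1] at hword
  have hword' := hanti' _ (by rw [hD]; linarith [hho.1]) _ _ hword
  have hj : JoinedIn (up (t - D)) (β 0 (l0 u) x0) (β 0 (l0 v) x0) :=
    ((hedge u hut).trans hword').trans (hedge v hvt).symm
  obtain ⟨γ, hγ⟩ := hj
  have hRc : Continuous (fun x : Cu 1 => γ (x 0)) := γ.continuous.comp (continuous_apply 0)
  refine hext D (by rw [hD]; linarith) (fun x => γ (x 0)) hRc.continuousOn ?_
    ⟨fun x => γ (x 0), hRc, fun x => hγ _, fun x _ => rfl⟩
  intro i ε p hp x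
  have hi : i = 0 := by
    apply Fin.ext
    have := i.2
    omega
  subst hi
  have hx : fi 0 ε (sc m p x) 0 = ev ε := by rw [fi_zero]
  show γ (fi 0 ε (sc m p x) 0) = β 0 (lab (gf 0 ε (2 ^ m) G) p) x
  rw [hx, cu_zero x]
  cases ε
  · rw [hu p, ev_false]
    exact γ.source
  · rw [hv p, ev_true]
    exact γ.target

end Pool.Agent.Lib.MP_b1a3a4_al.MVS.TH.H49
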