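import Pool.Agent.Lib.MP_b1a3a4_al.MVS.TH.Iface

/-!
# Project MVS, part V, module RETR (13.9)

Extension of homotopies from the boundary of the cube.
-/

set_option linter.all false

namespace Pool.Agent.Lib.MP_b1a3a4_al.MVS.TH.H49

open Set

/-- centred coordinates -/
noncomputable def cy {q : ℕ} (x : Cu q) : Fin q → ℝ := fun i => 2 * (x i : ℝ) - 1

lemma continuous_cy {q : ℕ} : Continuous (cy : Cu q → Fin q → ℝ) := by
  unfold cy
  fun_prop

lemma abs_cy_le {q : ℕ} (x : Cu q) (i : Fin q) : |cy x i| ≤ 1 := by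
  rw [abs_le]
  have h1 := (x i).2.1
  have h2 := (x i).2.2
  unfold cy
  constructor <;> linarith

lemma norm_cy_le {q : ℕ} (x : Cu q) : ‖cy x‖ ≤ 1 :=
  (pi_norm_le_iff_of_nonneg zero_le_one).2
    (fun i => by rw [Real.norm_eq_abs]; exact abs_cy_le x i)

lemma mem_bd_of_abs {q : ℕ} (x : Cu q) (i : Fin q) (h : |cy x i| = 1) :
    x ∈ Cube.boundary (Fin q) := by
  refine ⟨i, ?_⟩
  rcases (abs_eq zero_le_one).1 h with h | h
  · right
    apply Subtype.ext
    unfold cy at h
    show (x i : ℝ) = 1
    linarith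
  · left
    apply Subtype.ext
    unfold cy at h
    show (x i : ℝ) = 0
    linarith

lemma norm_cy_bd {q : ℕ} (x : Cu q) (h : x ∈ Cube.boundary (Fin q)) : ‖cy x‖ = 1 := by
  apply le_antisymm (norm_cy_le x)
  obtain ⟨i, hi⟩ := h
  have h1 : |cy x i| = 1 := by
    unfold cy
    rcases hi with hi | hi
    · rw [hi]
      norm_num
    · rw [hi]
      norm_num
  rw [← h1, ← Real.norm_eq_abs]
  exact norm_le_pi_norm _ i

/-- the dilation factor -/
noncomputable def mm {q : ℕ} (x : Cu q) (s : unitInterval) : ℝ := max ‖cy x‖ (1 - (s : ℝ) / 2)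

lemma half_le_mm {q : ℕ} (x : Cu q) (s : unitInterval) : 1 / 2 ≤ mm x s := by
  have := s.2.2
  exact le_max_of_le_right (by linarith)

lemma mm_pos {q : ℕ} (x : Cu q) (s : unitInterval) : 0 < mm x s :=
  lt_of_lt_of_le (by norm_num) (half_le_mm x s)

lemma mm_le_one {q : ℕ} (x : Cu q) (s : unitInterval) : mm x s ≤ 1 := by
  have := s.2.1
  exact max_le (norm_cy_le x) (by linarith)

lemma continuous_mm {q : ℕ} : Continuous (fun p : Cu q × unitInterval => mm p.1 p.2) := by
  unfold mm
  have h := (continuous_cy (q := q)).comp (continuous_fst (X := Cu q) (Y := unitInterval))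
  exact h.norm.max (by fun_prop)

/-- the first coordinate of the retraction -/
noncomputable def r1 {q : ℕ} (x : Cu q) (s : unitInterval) : Cu q :=
  fun i => projIcc 0 1 zero_le_one ((1 + cy x i / mm x s) / 2)

/-- the second coordinate of the retraction -/
noncomputable def r2 {q : ℕ} (x : Cu q) (s : unitInterval) : unitInterval :=
  projIcc 0 1 zero_le_one (2 - (2 - (s : ℝ)) / mm x s)

lemma continuous_r1 {q : ℕ} : Continuous (fun p : Cu q × unitInterval => r1 p.1 p.2) := by
  refine continuous_pi (fun i => ?_)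
  unfold r1
  refine continuous_projIcc.comp ?_
  have h1 : Continuous (fun p : Cu q × unitInterval => cy p.1 i) :=
    (continuous_apply i).comp (continuous_cy.comp continuous_fst)
  have h2 : Continuous (fun p : Cu q × unitInterval => cy p.1 i / mm p.1 p.2) :=
    h1.div continuous_mm (fun p => (mm_pos _ _).ne')
  exact (continuous_const.add h2).div_const 2

lemma continuous_r2 {q : ℕ} : Continuous (fun p : Cu q × unitInterval => r2 p.1 p.2) := by
  unfold r2
  refine continuous_projIcc.comp ?_
  have h1 : Continuous (fun p : Cu q × unitInterval => (2 - (p.2 : ℝ))) := by fun_prop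
  exact continuous_const.sub (h1.div continuous_mm (fun p => (mm_pos _ _).ne'))

lemma mm_eq_one_zero {q : ℕ} (x : Cu q) : mm x 0 = 1 := by
  unfold mm
  have := norm_cy_le x
  simp [this]

lemma mm_eq_one_bd {q : ℕ} (x : Cu q) (s : unitInterval) (h : x ∈ Cube.boundary (Fin q)) :
    mm x s = 1 := by
  apply le_antisymm (mm_le_one x s)
  unfold mm
  rw [norm_cy_bd x h]
  exact le_max_left _ _

lemma r1_of_mm {q : ℕ} (x : Cu q) (s : unitInterval) (h : mm x s = 1) : r1 x s = x := by
  funext i
  have h1 : (1 + cy x i / mm x s) / 2 = (x i : ℝ) := by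
    rw [h]
    unfold cy
    ring
  unfold r1
  rw [h1]
  exact projIcc_val zero_le_one (x i)

lemma r2_of_mm {q : ℕ} (x : Cu q) (s : unitInterval) (h : mm x s = 1) : r2 x s = s := by
  have h1 : 2 - (2 - (s : ℝ)) / mm x s = (s : ℝ) := by
    rw [h]
    ring
  unfold r2
  rw [h1]
  exact projIcc_val zero_le_one s

lemma cy_r1 {q : ℕ} (x : Cu q) (s : unitInterval) (i : Fin q) :
    cy (r1 x s) i = cy x i / mm x s := by
  have hM := mm_pos x s
  have h0 : |cy x i| ≤ mm x s := by
    rw [← Real.norm_eq_abs]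
    exact (norm_le_pi_norm _ i).trans (le_max_left _ _)
  have h1 : |cy x i / mm x s| ≤ 1 := by
    rw [abs_div, abs_of_pos hM, div_le_one hM]
    exact h0
  rw [abs_le] at h1
  have h2 : (1 + cy x i / mm x s) / 2 ∈ Icc (0 : ℝ) 1 := by
    constructor <;> linarith [h1.1, h1.2]
  have h3 : ((r1 x s i : unitInterval) : ℝ) = (1 + cy x i / mm x s) / 2 := by
    unfold r1
    rw [projIcc_of_mem zero_le_one h2]
  have h4 : cy (r1 x s) i = 2 * ((r1 x s i : unitInterval) : ℝ) - 1 := rfl
  rw [h4, h3]
  ring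

lemma r_cases {q : ℕ} (x : Cu q) (s : unitInterval) :
    r1 x s ∈ Cube.boundary (Fin q) ∨ r2 x s = 0 := by
  rcases le_or_gt ‖cy x‖ (1 - (s : ℝ) / 2) with h | h
  · right
    have hM : mm x s = 1 - (s : ℝ) / 2 := max_eq_right h
    have h2 : 2 - (2 - (s : ℝ)) / mm x s = 0 := by
      have hpos := mm_pos x s
      rw [sub_eq_zero, eq_div_iff hpos.ne', hM]
      ring
    unfold r2
    rw [h2]
    exact projIcc_left (h := zero_le_one)
  · left
    have hM : mm x s = ‖cy x‖ := max_eq_left h.le
    have hpos : 0 < ‖cy x‖ := by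
      rw [← hM]
      exact mm_pos x s
    have h1 : ∃ i, ‖cy x‖ ≤ |cy x i| := by
      by_contra hcon
      push Not at hcon
      have h3 : ‖cy x‖ < ‖cy x‖ := (pi_norm_lt_iff hpos).2
        (fun i => by rw [Real.norm_eq_abs]; exact hcon i)
      exact lt_irrefl _ h3
    obtain ⟨i, hi⟩ := h1
    have h2 : |cy x i| = ‖cy x‖ := by
      apply le_antisymm _ hi
      rw [← Real.norm_eq_abs]
      exact norm_le_pi_norm _ i
    apply mem_bd_of_abs _ i
    rw [cy_r1, abs_div, abs_of_pos (mm_pos x s), h2, hM]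
    exact div_self hpos.ne'

lemma isClosed_boundary {q : ℕ} : IsClosed (Cube.boundary (Fin q)) := by
  have h : Cube.boundary (Fin q) = ⋃ i : Fin q, {y : Cu q | y i = 0 ∨ y i = 1} := by
    ext y
    simp [Cube.boundary]
  rw [h]
  refine isClosed_iUnion_of_finite (fun i => ?_)
  exact (isClosed_eq (continuous_apply i) continuous_const).union
    (isClosed_eq (continuous_apply i) continuous_const)

/-- RETR (13.9) -/
theorem retr : RetrStatement := by
  classical
  intro Z _ q B f₀ g hf₀ hB hg hgB
  set G : Cu q × unitInterval → Z :=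
    fun p => if p.1 ∈ Cube.boundary (Fin q) then g p.1 p.2 else f₀ p.1 with hG
  have hcl1 : IsClosed {p : Cu q × unitInterval | p.1 ∈ Cube.boundary (Fin q)} :=
    isClosed_boundary.preimage continuous_fst
  have hcl2 : IsClosed {p : Cu q × unitInterval | p.2 = 0} :=
    isClosed_eq continuous_snd continuous_const
  have hG1 : ContinuousOn G {p : Cu q × unitInterval | p.1 ∈ Cube.boundary (Fin q)} := by
    have h1 : ContinuousOn (fun p : Cu q × unitInterval => g p.1 p.2)
        {p : Cu q × unitInterval | p.1 ∈ Cube.boundary (Fin q)} :=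
      ContinuousOn.eval (hg.comp continuous_fst.continuousOn (fun p hp => hp))
        continuous_snd.continuousOn
    refine h1.congr (fun p hp => ?_)
    have hp' : p.1 ∈ Cube.boundary (Fin q) := hp
    simp only [hG, if_pos hp']
  have hG2 : ContinuousOn G {p : Cu q × unitInterval | p.2 = 0} := by
    have h1 : ContinuousOn (fun p : Cu q × unitInterval => f₀ p.1)
        {p : Cu q × unitInterval | p.2 = 0} := (hf₀.comp continuous_fst).continuousOn
    refine h1.congr (fun p hp => ?_)
    have hp' : p.2 = 0 := hp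
    by_cases hb : p.1 ∈ Cube.boundary (Fin q)
    · simp only [hG, if_pos hb]
      rw [hp']
      exact (hgB p.1 hb).2
    · simp only [hG, if_neg hb]
  have hGc := hG1.union_of_isClosed hG2 hcl1 hcl2
  have hF : Continuous (fun p : Cu q × unitInterval => G (r1 p.1 p.2, r2 p.1 p.2)) :=
    hGc.comp_continuous (continuous_r1.prodMk continuous_r2) (fun p => r_cases p.1 p.2)
  let F : C(Cu q × unitInterval, Z) := ⟨_, hF⟩
  refine ⟨fun x => F.curry x, F.curry.continuous, ?_, ?_, ?_⟩
  · intro x s
    show G (r1 x s, r2 x s) ∈ B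
    by_cases hb : r1 x s ∈ Cube.boundary (Fin q)
    · simp only [hG, if_pos hb]
      exact (hgB _ hb).1 _
    · simp only [hG, if_neg hb]
      exact hB _
  · intro x
    show G (r1 x 0, r2 x 0) = f₀ x
    rw [r1_of_mm x 0 (mm_eq_one_zero x), r2_of_mm x 0 (mm_eq_one_zero x)]
    by_cases hb : x ∈ Cube.boundary (Fin q)
    · simp only [hG, if_pos hb]
      exact (hgB _ hb).2
    · simp only [hG, if_neg hb]
  · intro x hx
    ext s
    show G (r1 x s, r2 x s) = g x s
    rw [r1_of_mm x s (mm_eq_one_bd x s hx), r2_of_mm x s (mm_eq_one_bd x s hx)]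
    simp only [hG, if_pos hx]

end Pool.Agent.Lib.MP_b1a3a4_al.MVS.TH.H49
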